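import Mathlib
import Pool.Agent.H26.AlmostBip

open Pool.Agent.H26.Chi Pool.Agent.H26.AlmostBip

/-- For every positive `ε` there is a graph of chromatic number aleph one all of whose induced
subgraphs on `n` vertices become bipartite after deleting at most `C * n ^ (1 + ε)` edges. -/
theorem Pool.Agent.Results.MP_5b422c_co.AlmostBipartite.result (ε : ℝ) (hε : 0 < ε) :
    ∃ (V : Type) (G : SimpleGraph V), chi G = Cardinal.aleph 1 ∧
      ∃ C : ℝ, 0 < C ∧ ∀ n : ℕ, 1 ≤ n → ∀ S : Finset V, S.card = n →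
        (beta (G.induce (S : Set V)) : ℝ) ≤ C * (n : ℝ) ^ (1 + ε) := by
  obtain ⟨k, hk⟩ := exists_nat_one_div_lt hε
  refine ⟨_, G (Pool.Agent.H26.Shift.Idx k) k, chi_G k, 4 * (k + 1), by positivity,
    fun n hn S hS => ?_⟩
  have hn' : (1 : ℝ) ≤ n := by exact_mod_cast hn
  set x : ℝ := (n : ℝ) ^ ((1 : ℝ) / (k + 1)) with hx
  have hx1 : 1 ≤ x := Real.one_le_rpow hn' (by positivity)
  have hxk : x ^ (k + 1) = n := by
    rw [hx, one_div, ← Nat.cast_add_one]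
    exact Real.rpow_inv_natCast_pow (by positivity) (Nat.succ_ne_zero k)
  have hD : 0 < ⌈x⌉₊ := Nat.ceil_pos.2 (by linarith)
  have h1 : S.card ≤ ⌈x⌉₊ ^ (k + 1) := by
    have : (n : ℝ) ≤ (⌈x⌉₊ : ℝ) ^ (k + 1) := by
      rw [← hxk]; exact pow_le_pow_left₀ (by linarith) (Nat.le_ceil x) _
    rw [hS]; exact_mod_cast this
  have h2 := beta_le k _ hD S h1
  have h3 : (⌈x⌉₊ : ℝ) ≤ 2 * x := by linarith [Nat.ceil_lt_add_one (by linarith : 0 ≤ x)]
  have h4 : x ≤ (n : ℝ) ^ ε := Real.rpow_le_rpow_of_exponent_le hn' hk.le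
  rw [hS] at h2
  have h5 : (beta ((G (Pool.Agent.H26.Shift.Idx k) k).induce (S : Set _)) : ℝ) ≤
      (k + 1) * ⌈x⌉₊ * (2 * n) := by exact_mod_cast h2
  rw [Real.rpow_add (by linarith), Real.rpow_one]
  have h6 : (⌈x⌉₊ : ℝ) ≤ 2 * (n : ℝ) ^ ε := by linarith
  calc _ ≤ ((k : ℝ) + 1) * ⌈x⌉₊ * (2 * n) := h5
    _ ≤ (k + 1) * (2 * (n : ℝ) ^ ε) * (2 * n) := by gcongr
    _ = _ := by ring
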